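import Pool.Agent.R597.RD.NF

/-!
# Density of the regulator: cubic hypersurfaces in one sequence of bidegrees

`R.AllDense i j`: Q1 in the bidegree `(i, j)` for all smooth `K`-schemes of pure dimension;
`R.CubicDense i j`: Q1 in the bidegree `(i, j)` for the cubic hypersurfaces `∑ yₖ gₖ(x) = 1` with
`deg gₖ ≤ 2` and `V(g)` smooth of pure codimension `≥ 1`; `R.Q1`: Q1 in all bidegrees;
`R.Q1NumberFields`: Q1 in all bidegrees over all number fields.
-/

set_option autoImplicit false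

open CategoryTheory CategoryTheory.Limits AlgebraicGeometry MvPolynomial
open Pool.Agent.R904.CU Pool.Agent.R597.RD

namespace Pool.Agent.Results.MP_b2b689_ag.CubicsAndOneSequence

theorem result :
    (∀ (K : Type) [Field K] (R : Regulator K), IsRegulator R → Jouanolou K →
      R.Shifts ∧ R.OneSequence ∧ R.CubicSequence ∧ R.Diagonals) ∧
    -- all number fields: cubic hypersurfaces over `ℚ` in the bidegrees `(5k, 3k)` suffice
    (∀ R : Regulator ℚ, IsRegulator R → Jouanolou ℚ →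
      (R.Q1NumberFields ↔ ∀ k : ℕ, 1 ≤ k → R.CubicDense (5 * k) (3 * k))) := by
  refine ⟨fun K _ R hR hJ => ⟨fun i j a b h1 h2 h => shift_ab hR hJ h1 h2 h, fun T hT => ?_,
    fun T hT => ?_, fun m D hD h j => diagonal hR hJ m hD h j⟩, fun R hR hJ => ?_⟩
  · exact ⟨fun h p _ => h p.1 p.2, q1_of_all hR hJ hT⟩
  · exact ⟨fun h p _ => cubic_of_all (h p.1 p.2), q1_of_cubic hR hJ hT⟩
  · rw [q1NumberFields_iff R]
    constructor
    · intro h k _
      exact cubic_of_all (h _ _)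
    · intro h
      refine q1_of_cubic hR hJ (T := {p | ∃ k : ℕ, 1 ≤ k ∧ p = ((5 * k : ℤ), (3 * k : ℤ))})
        (fun B => ?_) ?_
      · refine ⟨(5 * ((B.natAbs + 1 : ℕ) : ℤ), 3 * ((B.natAbs + 1 : ℕ) : ℤ)),
          ⟨B.natAbs + 1, by omega, rfl⟩, ?_, ?_⟩
        · change B ≤ 2 * (5 * ((B.natAbs + 1 : ℕ) : ℤ)) - 3 * (3 * ((B.natAbs + 1 : ℕ) : ℤ))
          omega
        · change B ≤ 2 * (3 * ((B.natAbs + 1 : ℕ) : ℤ)) - 5 * ((B.natAbs + 1 : ℕ) : ℤ)
          omega
      · rintro _ ⟨k, hk, rfl⟩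
        exact h k hk

end Pool.Agent.Results.MP_b2b689_ag.CubicsAndOneSequence
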